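import Pool.Agent.Helper23.EC.DGoalsA

set_option autoImplicit false

open MeasureTheory Filter Topology Set

namespace Pool.Agent.Helper25.EC.D_B8

open EC237

theorem thm (hA1 : EC237.A1) (hA3 : EC237.A3) (hB1 : EC237.B1) (hB4 : EC237.B4)
    (hB5 : EC237.B5) : EC237.B8 := by
  intro y hy r hr
  have _ := hA1
  obtain ⟨C, hC, hb⟩ := hB5 y hy
  obtain ⟨c', C', hc', hC', hb1⟩ := hB1 y hy
  obtain ⟨_, _, _, hsum⟩ := hB4
  have hU : IsOpen (Bd y) := Metric.isOpen_ball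
  have hyU : (y : ℂ) ∈ Bd y := by
    unfold Bd
    exact Metric.mem_ball_self (by positivity)
  have hcl : ∀ p : (ℤ × ℤ) × (ℤ × ℤ), InCl 1 p.1 ∧ InCl r p.2 →
      p.1 ≠ 0 ∧ p.2 ≠ 0 ∧ p.1 + p.2 ≠ 0 := by
    rintro ⟨⟨a, b⟩, ⟨c, d⟩⟩ ⟨h1, h2⟩
    unfold InCl at h1 h2
    simp only at h1 h2
    refine ⟨?_, ?_, ?_⟩
    · intro h
      simp only [Prod.mk_eq_zero] at h
      omega
    · intro h
      simp only [Prod.mk_eq_zero] at h
      omega
    · intro h
      simp only [Prod.mk_add_mk, Prod.mk_eq_zero] at h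
      omega
  set F : (ℤ × ℤ) × (ℤ × ℤ) → ℂ → ℂ := fun p w => if InCl 1 p.1 ∧ InCl r p.2 then
    PowerSeries.coeff 1 (Pp w (p.1, 1) (p.2, -1)) else 0 with hF
  set G : (ℤ × ℤ) × (ℤ × ℤ) → ℂ → ℂ := fun p w => if InCl 1 p.1 ∧ InCl r p.2 then
    PowerSeries.coeff 1 (dP w (p.1, 1) (p.2, -1)) else 0 with hG
  have hder : ∀ p, ∀ w ∈ Bd y, HasDerivAt (F p) (w⁻¹ * G p w) w := by
    intro p w hw
    by_cases hp : InCl 1 p.1 ∧ InCl r p.2
    · obtain ⟨h1, h2, h3⟩ := hcl p hp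
      have h := hA3 w (hb1 w hw).1 (p.1, 1) (p.2, -1) h1 h2 h3 1
      have e1 : F p = fun w => PowerSeries.coeff 1 (Pp w (p.1, 1) (p.2, -1)) := by
        funext w; simp only [hF, if_pos hp]
      have e2 : G p w = PowerSeries.coeff 1 (dP w (p.1, 1) (p.2, -1)) := by
        simp only [hG, if_pos hp]
      rw [e1, e2]
      refine h.congr_deriv ?_
      rw [PowerSeries.coeff_smul, smul_eq_mul]
    · have e1 : F p = fun _ => 0 := by
        funext w; simp only [hF, if_neg hp]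
      have e2 : G p w = 0 := by simp only [hG, if_neg hp]
      rw [e1, e2, mul_zero]
      exact hasDerivAt_const _ _
  set u : (ℤ × ℤ) × (ℤ × ℤ) → ℝ := fun q =>
    C * (pw q.1 * pw q.2 + pw q.1 * pw (q.1 + q.2) + pw q.2 * pw (q.1 + q.2)) with hu
  have hus : Summable u := hsum.mul_left C
  have pwnn : ∀ k : ℤ × ℤ, 0 ≤ pw k := fun k => by
    unfold pw rk
    exact Real.rpow_nonneg (Real.sqrt_nonneg _) _
  have hle : ∀ p, ∀ w ∈ Bd y, ‖F p w‖ ≤ u p := by
    intro p w hw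
    by_cases hp : InCl 1 p.1 ∧ InCl r p.2
    · obtain ⟨h1, h2, h3⟩ := hcl p hp
      simp only [hF, if_pos hp]
      exact hb w hw (p.1, 1) (p.2, -1) (by simp) (by simp) h1 h2
    · simp only [hF, if_neg hp, norm_zero, hu]
      have a1 := pwnn p.1
      have a2 := pwnn p.2
      have a3 := pwnn (p.1 + p.2)
      positivity
  have hd1 : ∀ p, DifferentiableOn ℂ (F p) (Bd y) := fun p w hw =>
    ((hder p w hw).differentiableAt).differentiableWithinAt
  have hs := Complex.hasSum_deriv_of_summable_norm hus hd1 hU hle hyU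
  have hd := (Complex.differentiableOn_tsum_of_summable_norm hus hd1 hU hle).differentiableAt
    (hU.mem_nhds hyU)
  have hy0 : (y : ℂ) ≠ 0 := by exact_mod_cast hy.ne'
  have hs2 : HasSum (fun p => (y:ℂ)⁻¹ * G p (y:ℂ))
      (deriv (fun w => ∑' p, F p w) (y:ℂ)) := by
    refine hs.congr_fun ?_
    intro p
    exact (hder p _ hyU).deriv.symm
  have hs3 : HasSum (fun p => G p (y:ℂ)) ((y:ℂ) * deriv (fun w => ∑' p, F p w) (y:ℂ)) := by
    refine (hs2.mul_left (y:ℂ)).congr_fun ?_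
    intro p
    field_simp
  refine ⟨?_, hs3.summable, ?_⟩
  · exact Summable.of_norm_bounded hus (fun p => hle p _ hyU)
  · have e : (y:ℂ)⁻¹ * ∑' p, G p (y:ℂ) = deriv (fun w => ∑' p, F p w) (y:ℂ) := by
      rw [hs3.tsum_eq]
      field_simp
    have h := hd.hasDerivAt
    rw [← e] at h
    exact h

end Pool.Agent.Helper25.EC.D_B8
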