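import Pool.Agent.Helper23.EC.DGoalsM

set_option autoImplicit false

open MeasureTheory Filter Topology Set

namespace Pool.Agent.Helper25.EC.D_MVA

open EC237

/-- negate the shift -/
def ns (v : SV) : SV := (v.1, -v.2)

theorem ns_add (u v : SV) : ns u + ns v = ns (u + v) := by
  unfold ns
  ext <;> simp [add_comm]

theorem res_smul (c : ℂ) (f : PowerSeries ℂ) :
    PowerSeries.rescale (-1 : ℂ) (c • f) = c • PowerSeries.rescale (-1 : ℂ) f := by
  ext n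
  rw [PowerSeries.coeff_rescale, PowerSeries.coeff_smul, PowerSeries.coeff_smul,
    PowerSeries.coeff_rescale, smul_eq_mul, smul_eq_mul]
  ring

theorem gser_ns (a α : ℂ) : gser a (-α) = PowerSeries.rescale (-1 : ℂ) (gser a α) := by
  ext n
  rw [PowerSeries.coeff_rescale]
  unfold gser
  rw [PowerSeries.coeff_mk, PowerSeries.coeff_mk, neg_pow]
  ring

theorem As_ns (w : ℂ) (v : SV) : As w (ns v) = PowerSeries.rescale (-1 : ℂ) (As w v) := by
  unfold As ns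
  rw [← gser_ns]
  push_cast
  rfl

theorem Bs_ns (w : ℂ) (v : SV) : Bs w (ns v) = PowerSeries.rescale (-1 : ℂ) (Bs w v) := by
  unfold Bs ns
  rw [← gser_ns]
  push_cast
  rfl

theorem hh_ns (w : ℂ) (v : SV) : hh w (ns v) = PowerSeries.rescale (-1 : ℂ) (hh w v) := by
  unfold hh
  rw [res_smul, map_mul, As_ns, Bs_ns]

theorem dd_ns (w : ℂ) (v : SV) : dd w (ns v) = PowerSeries.rescale (-1 : ℂ) (dd w v) := by
  unfold dd
  rw [res_smul, map_add, map_pow, map_pow, As_ns, Bs_ns]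

theorem Ff_ns (w : ℂ) (u v : SV) :
    Ff w (ns u) (ns v) = PowerSeries.rescale (-1 : ℂ) (Ff w u v) := by
  unfold Ff br
  simp only [ns_add, hh_ns, dd_ns, map_add, map_sub, map_mul]

theorem fS_even (y : ℝ) (r1 r2 m1 m2 a1 a2 : ℤ) :
    fS y r1 r2 m1 m2 (-a1) (-a2) 2 = fS y r1 r2 m1 m2 a1 a2 2 := by
  unfold fS
  refine tsum_congr fun q => ?_
  have h := Ff_ns (y:ℂ) ((q.1, m1), a1) ((q.2, m2), a2)
  unfold ns at h
  simp only at h
  rw [h, PowerSeries.coeff_rescale]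
  norm_num

theorem gen (hN4 : EC237.N4) (hN5 : EC237.N5) (hM3 : EC237.M3) (hM4 : EC237.M4)
    (y : ℝ) (hy : 0 < y) (c3 c4 a a3 a4 : ℤ) (ha : |a| ≤ 1) (ha3 : |a3| ≤ 1) (ha4 : |a4| ≤ 1)
    (ha34 : |a3 + a4| ≤ 1) (hc : (1 + 1 + c3 + c4) % 3 = 0) :
    HasSum (fun m : ℤ × ℤ × ℤ => VM y (1, m.1, a) (1, m.2.1, -a) (c3, m.2.2, a3)
      (c4, -(m.1 + m.2.1 + m.2.2), a4)) 0 := by
  have ha' : |(-a)| ≤ 1 := by rwa [abs_neg]
  have haa : |a + -a| ≤ 1 := by simp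
  obtain ⟨s1, s2⟩ := hM3 y hy 1 1 c3 c4 a (-a) a3 a4 ha ha' ha3 ha4 haa hc
  obtain ⟨s3, s4, s5, s6⟩ := hM4 y hy 1 1 c3 c4 a (-a) a3 a4 ha ha' ha3 ha4 haa ha34 hc
  set g : ℤ × ℤ × ℤ → ℂ := fun m => VM y (1, m.1, a) (1, m.2.1, -a) (c3, m.2.2, a3)
      (c4, -(m.1 + m.2.1 + m.2.2), a4) with hg
  have hs : Summable g := by
    refine (((((s1.sub s3).add s2).add (s4.sub s5)).add s6).mul_left (1 / 3 : ℂ)).congr ?_
    intro m
    simp only [hg, VM]
    ring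
  -- the swap
  let σ : (ℤ × ℤ × ℤ) ≃ (ℤ × ℤ × ℤ) :=
    { toFun := fun m => (m.2.1, m.1, m.2.2)
      invFun := fun m => (m.2.1, m.1, m.2.2)
      left_inv := fun m => rfl
      right_inv := fun m => rfl }
  have hanti : ∀ m, g (σ m) = -g m := by
    rintro ⟨m1, m2, m3⟩
    show VM y (1, m2, a) (1, m1, -a) (c3, m3, a3) (c4, -(m2 + m1 + m3), a4)
      = -VM y (1, m1, a) (1, m2, -a) (c3, m3, a3) (c4, -(m1 + m2 + m3), a4)
    have e0 : fS y 1 1 m2 m1 a (-a) 0 = -fS y 1 1 m1 m2 a (-a) 0 := by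
      have h := hN5 y hy 1 1 m1 m2 (-a) a
      have h2 := hN5 y hy 1 1 m1 m2 a (-a)
      rw [(h.1 0).2, h.2.2.2.2.2.1, h2.2.2.2.2.2.1]
    have e2 : fS y 1 1 m2 m1 a (-a) 2 = -fS y 1 1 m1 m2 a (-a) 2 := by
      have h := hN5 y hy 1 1 m1 m2 (-a) a
      rw [(h.1 2).2, ← fS_even y 1 1 m1 m2 a (-a), neg_neg]
    have q1 := hN4 y hy 1 m1 a
    have q1' := hN4 y hy 1 m1 (-a)
    have q2 := hN4 y hy 1 m2 a
    have q2' := hN4 y hy 1 m2 (-a)
    have z1 := q1.2.2.1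
    have z1' := q1'.2.2.1
    have z2 := q2.2.2.1
    have z2' := q2'.2.2.1
    have w1 := q1.2.2.2.2.1
    have w1' := q1'.2.2.2.2.1
    have w2 := q2.2.2.2.2.1
    have w2' := q2'.2.2.2.2.1
    have hcomm : m2 + m1 + m3 = m1 + m2 + m3 := by ring
    unfold VM fL hL
    simp only
    rw [hcomm, e0, e2, z1, z1', z2, z2', w1, w1', w2, w2']
    push_cast
    ring
  have ht : ∑' m, g m = 0 := by
    have h1 : ∑' m, g (σ m) = ∑' m, g m := σ.tsum_eq g
    have h2 : ∑' m, g (σ m) = -∑' m, g m := by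
      rw [← tsum_neg]
      exact tsum_congr hanti
    have h3 : ∑' m, g m = -∑' m, g m := h1.symm.trans h2
    linear_combination (1 / 2 : ℂ) * h3
  have := hs.hasSum
  rwa [ht] at this

theorem thm (hN4 : EC237.N4) (hN5 : EC237.N5) (hM3 : EC237.M3) (hM4 : EC237.M4) :
    EC237.MVA := by
  intro y hy
  constructor
  · exact gen hN4 hN5 hM3 hM4 y hy 1 3 1 1 (-1) (by norm_num) (by norm_num) (by norm_num)
      (by norm_num) (by norm_num)
  · have h := gen hN4 hN5 hM3 hM4 y hy 3 1 (-1) (-1) 1 (by norm_num) (by norm_num) (by norm_num)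
      (by norm_num) (by norm_num)
    let e : (ℤ × ℤ × ℤ) ≃ (ℤ × ℤ × ℤ) :=
      { toFun := fun m => (m.2.1, m.2.2, -(m.1 + m.2.1 + m.2.2))
        invFun := fun m => (-(m.1 + m.2.1 + m.2.2), m.1, m.2.1)
        left_inv := fun m => by
          rcases m with ⟨a, b, c⟩
          simp only [Prod.mk.injEq, and_true]
          ring
        right_inv := fun m => by
          rcases m with ⟨a, b, c⟩
          simp only [Prod.mk.injEq, true_and]
          ring }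
    have h2 := (e.hasSum_iff).2 h
    refine h2.congr_fun ?_
    rintro ⟨m1, m2, m3⟩
    show VM y (1, m2, -1) (1, m3, 1) (3, -(m1 + m2 + m3), -1) (1, m1, 1)
      = VM y (1, m2, -1) (1, m3, - -1) (3, -(m1 + m2 + m3), -1)
        (1, -(m2 + m3 + -(m1 + m2 + m3)), 1)
    rw [show -(m2 + m3 + -(m1 + m2 + m3)) = m1 by ring, neg_neg]

end Pool.Agent.Helper25.EC.D_MVA
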