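import Pool.Agent.Helper38.EC.Goals

set_option autoImplicit false

open MeasureTheory Filter Topology Set Complex

namespace Pool.Agent.Helper25.EC.I_SERB

open EC237 EC237.PI

theorem harm_bd (n : ℕ) : 0 ≤ (harmonic n : ℝ) ∧ (harmonic n : ℝ) ≤ n := by
  induction n with
  | zero => simp
  | succ n ih =>
    rw [harmonic_succ]
    push_cast
    have h1 : 0 ≤ ((n : ℝ) + 1)⁻¹ := by positivity
    have h2 : ((n : ℝ) + 1)⁻¹ ≤ 1 := inv_le_one_of_one_le₀ (by linarith [Nat.cast_nonneg (α := ℝ) n])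
    exact ⟨by linarith [ih.1], by linarith [ih.2]⟩

theorem term_bd (c : ℝ) (hc : 0 ≤ c) (s : ℂ) (k : ℕ) (hck : c ≤ (k.factorial : ℝ) ^ 2) :
    ‖(c : ℂ) * s ^ k / (k.factorial : ℂ) ^ 2‖ ≤ ‖s‖ ^ k := by
  have hf : (0 : ℝ) < (k.factorial : ℝ) ^ 2 := by positivity
  rw [norm_div, norm_mul, norm_pow, norm_pow, Complex.norm_real, Complex.norm_natCast,
    Real.norm_of_nonneg hc, div_le_iff₀ hf, mul_comm]
  exact mul_le_mul_of_nonneg_left hck (by positivity)

/-- The tail of a series bounded by a geometric series. -/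
theorem tail_bd (g : ℕ → ℂ) (a : ℝ) (ha0 : 0 ≤ a) (ha : a ≤ 1 / 4)
    (hg : ∀ k, ‖g k‖ ≤ a ^ k) : ‖(∑' k, g k) - g 0‖ ≤ 4 / 3 * a := by
  have ha1 : a < 1 := by linarith
  have hs : Summable g := Summable.of_norm_bounded (summable_geometric_of_lt_one ha0 ha1) hg
  rw [hs.tsum_eq_zero_add, add_sub_cancel_left]
  have hs' : Summable fun k : ℕ => a ^ (k + 1) :=
    (summable_nat_add_iff 1).2 (summable_geometric_of_lt_one ha0 ha1)
  have h1 : ‖∑' k, g (k + 1)‖ ≤ ∑' k : ℕ, a ^ (k + 1) :=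
    tsum_of_norm_bounded hs'.hasSum fun k => hg (k + 1)
  have h2 : ∑' k : ℕ, a ^ (k + 1) = a / (1 - a) := by
    have : ∀ k : ℕ, a ^ (k + 1) = a * a ^ k := fun k => by rw [pow_succ, mul_comm]
    simp_rw [this]
    rw [tsum_mul_left, tsum_geometric_of_lt_one ha0 ha1, div_eq_mul_inv]
  rw [h2] at h1
  refine h1.trans ?_
  rw [div_le_iff₀ (by linarith)]
  nlinarith

theorem fac_ge (k : ℕ) : (k : ℝ) ≤ (k.factorial : ℝ) ^ 2 := by
  have h1 : (k : ℝ) ≤ k.factorial := by exact_mod_cast Nat.self_le_factorial k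
  have h2 : (1 : ℝ) ≤ k.factorial := by exact_mod_cast Nat.factorial_pos k
  nlinarith

theorem im_zero (z : ℂ) (r : ℝ) (h : z ^ 2 = (r : ℂ)) : (Ic z).im = 0 ∧ (Sc z).im = 0 := by
  constructor
  · have : Ic z = ((∑' k : ℕ, (r / 4) ^ k / (k.factorial : ℝ) ^ 2 : ℝ) : ℂ) := by
      unfold Ic
      rw [Complex.ofReal_tsum, h]
      push_cast
      rfl
    rw [this, Complex.ofReal_im]
  · have : Sc z = ((∑' k : ℕ, (harmonic k : ℝ) * (r / 4) ^ k / (k.factorial : ℝ) ^ 2 : ℝ) : ℂ) := by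
      unfold Sc
      rw [Complex.ofReal_tsum, h]
      push_cast
      rfl
    rw [this, Complex.ofReal_im]

theorem thm : EC237.PI.G_SERB := by
  refine ⟨?_, ?_⟩
  · intro z hz
    have hn : ‖z ^ 2 / 4‖ = ‖z‖ ^ 2 / 4 := by
      rw [norm_div, norm_pow]
      norm_num
    have hz0 : 0 ≤ ‖z‖ := norm_nonneg z
    have hsq : ‖z‖ ^ 2 ≤ 1 := by nlinarith
    have ha0 : 0 ≤ ‖z‖ ^ 2 / 4 := by positivity
    have ha : ‖z‖ ^ 2 / 4 ≤ 1 / 4 := by linarith
    constructor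
    · have h1 := tail_bd (fun k : ℕ => (z ^ 2 / 4) ^ k / (k.factorial : ℂ) ^ 2) (‖z‖ ^ 2 / 4) ha0 ha
        (fun k => by
          have h2 : (1 : ℝ) ≤ (k.factorial : ℝ) ^ 2 := by
            have : (1 : ℝ) ≤ k.factorial := by exact_mod_cast Nat.factorial_pos k
            nlinarith
          have h3 := term_bd 1 zero_le_one (z ^ 2 / 4) k h2
          rw [Complex.ofReal_one, one_mul, hn] at h3
          exact h3)
      have h4 : (z ^ 2 / 4) ^ 0 / ((0 : ℕ).factorial : ℂ) ^ 2 = 1 := by simp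
      simp only [h4] at h1
      have h5 : Ic z = ∑' k : ℕ, (z ^ 2 / 4) ^ k / (k.factorial : ℂ) ^ 2 := rfl
      rw [h5]
      linarith
    · have h1 := tail_bd (fun k : ℕ => (harmonic k : ℂ) * (z ^ 2 / 4) ^ k / (k.factorial : ℂ) ^ 2)
        (‖z‖ ^ 2 / 4) ha0 ha
        (fun k => by
          have h3 := term_bd (harmonic k : ℝ) (harm_bd k).1 (z ^ 2 / 4) k
            ((harm_bd k).2.trans (fac_ge k))
          rw [hn] at h3
          have h6 : ((harmonic k : ℝ) : ℂ) = (harmonic k : ℂ) := by norm_cast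
          rw [h6] at h3
          exact h3)
      have h4 : (harmonic 0 : ℂ) * (z ^ 2 / 4) ^ 0 / ((0 : ℕ).factorial : ℂ) ^ 2 = 0 := by simp
      simp only [h4, sub_zero] at h1
      have h5 : Sc z = ∑' k : ℕ, (harmonic k : ℂ) * (z ^ 2 / 4) ^ k / (k.factorial : ℂ) ^ 2 := rfl
      rw [h5]
      linarith
  · intro x
    have h1 := im_zero (x : ℂ) (x ^ 2) (by push_cast; ring)
    have h2 := im_zero (-(I * x)) (-x ^ 2) (by
      push_cast
      rw [neg_sq, mul_pow, Complex.I_sq]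
      ring)
    exact ⟨h1.1, h1.2, h2.1, h2.2⟩

end Pool.Agent.Helper25.EC.I_SERB
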