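import Pool.Agent.Helper38.EC.GoalsE1

set_option autoImplicit false

open MeasureTheory Filter Topology Set

namespace Pool.Agent.Helper25.EC.E_CSS

open EC237

theorem thm (hB2 : EC237.B2) (hB4 : EC237.B4) : EC237.DX.G_CSS := by
  intro y hy i r r' α α' s hi hr hr' hα hα' hs
  obtain ⟨C, hC, hb⟩ := hB2 y hy
  have hyU : (y : ℂ) ∈ Bd y := by
    unfold Bd
    exact Metric.mem_ball_self (by positivity)
  have hb1 := (hb (y:ℂ) hyU).1
  have hpw : Summable pw := hB4.1
  have hpw2 : Summable (fun k : ℤ × ℤ => pw (s - k)) := (Equiv.subLeft s).summable_iff.2 hpw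
  have hcl : ∀ k : ℤ × ℤ, InCl r k ∧ InCl r' (s - k) → k ≠ 0 ∧ s - k ≠ 0 := by
    rintro ⟨a, b⟩ ⟨h1, h2⟩
    constructor
    · rintro h
      rw [h] at h1
      unfold InCl at h1
      simp only [Prod.fst_zero, Prod.snd_zero] at h1
      omega
    · intro h
      rw [h] at h2
      unfold InCl at h2
      simp only [Prod.fst_zero, Prod.snd_zero] at h2
      omega
  have pwnn : ∀ k : ℤ × ℤ, 0 ≤ pw k := fun k => by
    unfold pw rk
    exact Real.rpow_nonneg (Real.sqrt_nonneg _) _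
  have rknn : ∀ (k : ℤ × ℤ) (e : ℝ), 0 ≤ rk k ^ e := fun k e => by
    unfold rk
    exact Real.rpow_nonneg (Real.sqrt_nonneg _) _
  -- one exponent for each `i`
  have key : ∃ D : ℝ, 0 ≤ D ∧ ∀ k : ℤ × ℤ, k ≠ 0 → s - k ≠ 0 →
      ‖DX.xc (y:ℂ) i α α' k (s - k)‖ ≤ D * (pw k + pw (s - k)) := by
    have hsk : ∀ k : ℤ × ℤ, k + (s - k) = s := fun k => by abel
    interval_cases i
    · refine ⟨C * rk s ^ (1 / 2 : ℝ), mul_nonneg hC.le (rknn _ _), fun k h1 h2 => ?_⟩
      have h := (hb1 (k, α) (s - k, α') hα hα' h1 h2 (by simpa [hsk] using hs)).1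
      simp only [hsk] at h
      exact h
    · refine ⟨C * rk s ^ (-(1 / 2) : ℝ), mul_nonneg hC.le (rknn _ _), fun k h1 h2 => ?_⟩
      have h := (hb1 (k, α) (s - k, α') hα hα' h1 h2 (by simpa [hsk] using hs)).2.1
      simp only [hsk] at h
      exact h
    · refine ⟨C * rk s ^ (-1 : ℝ), mul_nonneg hC.le (rknn _ _), fun k h1 h2 => ?_⟩
      have h := (hb1 (k, α) (s - k, α') hα hα' h1 h2 (by simpa [hsk] using hs)).2.2
      simp only [hsk] at h
      exact h
  obtain ⟨D, hD, hk⟩ := key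
  refine Summable.of_norm_bounded ((hpw.add hpw2).mul_left D) (fun k => ?_)
  by_cases h : InCl r k ∧ InCl r' (s - k)
  · rw [if_pos h]
    exact hk k (hcl k h).1 (hcl k h).2
  · rw [if_neg h, norm_zero]
    exact mul_nonneg hD (add_nonneg (pwnn _) (pwnn _))

end Pool.Agent.Helper25.EC.E_CSS
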